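import Pool.Agent.BCS.Stmts

/-!
# Squad BCS, row FIB: integration by parts on the torus
-/

set_option autoImplicit false

noncomputable section

open scoped ContDiff Topology
open Set MeasureTheory

namespace Pool.Agent.BCS.H62

open Pool.Agent.BCS
open Pool.Agent.SecondKind (pd)

theorem pd_smooth {m : ℕ} {h : (Fin m → ℝ) → ℝ} (i : Fin m) (hh : ContDiff ℝ ∞ h) :
    ContDiff ℝ ∞ (pd i h) := by
  unfold pd
  exact (hh.fderiv_right (m := ∞) (by simp)).clm_apply contDiff_const

theorem pd_per {m : ℕ} {h : (Fin m → ℝ) → ℝ} (i j : Fin m)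
    (hp : ∀ t j, h (t + Pi.single j 1) = h t) (t : Fin m → ℝ) :
    pd i h (t + Pi.single j 1) = pd i h t := by
  unfold pd
  have h1 : (fun x => h (x + Pi.single j 1)) = h := by
    funext x
    exact hp x j
  rw [← fderiv_comp_add_right, h1]

theorem fib (hIbt : IbtStmt) : FibStmt := by
  intro m h i r hh hp
  have hs := pd_smooth i hh
  have hss := pd_smooth i hs
  have hexp : ContDiff ℝ ∞ (fun t => Real.exp (r * h t)) :=
    Real.contDiff_exp.comp (contDiff_const.mul hh)
  have hF : ContDiff ℝ ∞ (fun t => Real.exp (r * h t) * pd i h t) := hexp.mul hs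
  have h0 := hIbt m (fun t => Real.exp (r * h t) * pd i h t) i (hF.of_le (by
    exact_mod_cast le_top)) (by
    intro t
    show Real.exp (r * h (t + Pi.single i 1)) * pd i h (t + Pi.single i 1)
      = Real.exp (r * h t) * pd i h t
    rw [hp t i, pd_per i i hp t])
  have hd : pd i (fun t => Real.exp (r * h t) * pd i h t)
      = fun t => Real.exp (r * h t) * pd i (pd i h) t
        + r * (Real.exp (r * h t) * pd i h t ^ 2) := by
    funext t
    have h1 : HasFDerivAt h (fderiv ℝ h t) t :=
      (hh.differentiable (by simp) t).hasFDerivAt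
    have h2 : HasFDerivAt (fun t => Real.exp (r * h t))
        (Real.exp (r * h t) • (r • fderiv ℝ h t)) t := (h1.const_mul r).exp
    have h3 : HasFDerivAt (pd i h) (fderiv ℝ (pd i h) t) t :=
      (hs.differentiable (by simp) t).hasFDerivAt
    have h4 : fderiv ℝ (fun t => Real.exp (r * h t) * pd i h t) t
        = Real.exp (r * h t) • fderiv ℝ (pd i h) t
          + pd i h t • (Real.exp (r * h t) • (r • fderiv ℝ h t)) := (h2.mul h3).fderiv
    show fderiv ℝ (fun t => Real.exp (r * h t) * pd i h t) t (Pi.single i 1) = _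
    rw [h4]
    show Real.exp (r * h t) * fderiv ℝ (pd i h) t (Pi.single i 1)
      + pd i h t * (Real.exp (r * h t) * (r * fderiv ℝ h t (Pi.single i 1))) = _
    have e1 : fderiv ℝ (pd i h) t (Pi.single i 1) = pd i (pd i h) t := rfl
    have e2 : fderiv ℝ h t (Pi.single i 1) = pd i h t := rfl
    rw [e1, e2]
    ring
  rw [hd] at h0
  have i1 : IntegrableOn (fun t => Real.exp (r * h t) * pd i (pd i h) t)
      (Icc (0 : Fin m → ℝ) 1) :=
    ((hexp.mul hss).continuous.continuousOn).integrableOn_compact isCompact_Icc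
  have i2 : IntegrableOn (fun t => r * (Real.exp (r * h t) * pd i h t ^ 2))
      (Icc (0 : Fin m → ℝ) 1) :=
    ((contDiff_const.mul (hexp.mul (hs.pow 2))).continuous.continuousOn).integrableOn_compact
      isCompact_Icc
  unfold tI at h0 ⊢
  rw [integral_add i1 i2, integral_const_mul] at h0
  linarith

end Pool.Agent.BCS.H62
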