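import Pool.Agent.BCS.Stmts3

/-!
# Row LCF of squad BCS: Laplacian and gradients under a conformal change
-/

noncomputable section

open scoped ContDiff Topology
open Set

namespace Pool.Agent.BCS.H62

open Pool.Agent.SecondKind (Coord pd inv christoffel ricci)

variable {m : ℕ}

theorem lcf_det_ne {k : Coord m} (hk : Met k) (t : Fin m → ℝ) : (Matrix.of (k t)).det ≠ 0 := by
  intro h
  obtain ⟨v, hv, hv0⟩ := Matrix.exists_mulVec_eq_zero_iff.2 h
  have h1 := hk.pos t v hv
  have h2 : ∑ i, ∑ j, k t i j * v i * v j = ∑ i, v i * (Matrix.of (k t)).mulVec v i := by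
    refine Finset.sum_congr rfl fun i _ => ?_
    unfold Matrix.mulVec dotProduct
    rw [Finset.mul_sum]
    refine Finset.sum_congr rfl fun j _ => ?_
    change k t i j * v i * v j = v i * (k t i j * v j)
    ring
  rw [h2, hv0] at h1
  simp at h1

theorem lcf_inv_symm {k : Coord m} (hk : Met k) (t : Fin m → ℝ) (i j : Fin m) :
    inv k i j t = inv k j i t := by
  have hs : (Matrix.of (k t)).transpose = Matrix.of (k t) := by
    ext a b
    exact hk.symm t b a
  have h1 : ((Matrix.of (k t))⁻¹).transpose = (Matrix.of (k t))⁻¹ := by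
    rw [Matrix.transpose_nonsing_inv, hs]
  exact congrFun (congrFun h1 j) i

theorem lcf_inv_mul {k : Coord m} (hk : Met k) (t : Fin m → ℝ) (l j : Fin m) :
    ∑ p, inv k l p t * k t j p = if l = j then 1 else 0 := by
  have h := Matrix.nonsing_inv_mul (Matrix.of (k t)) (isUnit_iff_ne_zero.2 (lcf_det_ne hk t))
  have h1 := congrFun (congrFun h l) j
  rw [Matrix.mul_apply, Matrix.one_apply] at h1
  rw [← h1]
  refine Finset.sum_congr rfl fun p _ => ?_
  rw [hk.symm t j p]
  rfl

theorem lcf_inv {k : Coord m} (hk : Met k) (v : (Fin m → ℝ) → ℝ) (t : Fin m → ℝ)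
    (i j : Fin m) : inv (cfm v k) i j t = Real.exp (-(2 * v t)) * inv k i j t := by
  have hE : Real.exp (2 * v t) ≠ 0 := (Real.exp_pos _).ne'
  have h1 : Matrix.of (cfm v k t) = Real.exp (2 * v t) • Matrix.of (k t) := by
    ext a b
    simp [cfm]
  have h2 : (Matrix.of (cfm v k t))⁻¹ = Real.exp (-(2 * v t)) • (Matrix.of (k t))⁻¹ := by
    apply Matrix.inv_eq_left_inv
    rw [h1, Matrix.smul_mul, Matrix.mul_smul, Matrix.nonsing_inv_mul _
      (isUnit_iff_ne_zero.2 (lcf_det_ne hk t)), smul_smul, ← Real.exp_add]
    simp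
  unfold inv
  rw [h2]
  rfl

theorem lcf_pd {k : Coord m} (hk : Met k) {v : (Fin m → ℝ) → ℝ} (hv : ContDiff ℝ ∞ v)
    (t : Fin m → ℝ) (i j l : Fin m) : pd i (fun z => cfm v k z j l) t =
      Real.exp (2 * v t) * (2 * pd i v t * k t j l + pd i (fun z => k z j l) t) := by
  have hvd : DifferentiableAt ℝ v t := (hv.differentiable (by simp)).differentiableAt
  have hkd : DifferentiableAt ℝ (fun z => k z j l) t :=
    ((hk.smooth j l).differentiable (by simp)).differentiableAt
  have h1 := (hvd.hasFDerivAt.const_mul (2 : ℝ)).exp.mul hkd.hasFDerivAt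
  have h2 : HasFDerivAt (fun z => cfm v k z j l) _ t := h1
  unfold pd
  rw [h2.fderiv]
  simp
  ring

theorem lcf_chr {k : Coord m} (hk : Met k) {v : (Fin m → ℝ) → ℝ} (hv : ContDiff ℝ ∞ v)
    (t : Fin m → ℝ) (l i j : Fin m) : christoffel (cfm v k) l i j t =
      christoffel k l i j t + (if l = j then pd i v t else 0) + (if l = i then pd j v t else 0)
        - k t i j * ∑ p, inv k l p t * pd p v t := by
  unfold christoffel
  have e : ∀ p, inv (cfm v k) l p t * (pd i (fun z => cfm v k z j p) t +
      pd j (fun z => cfm v k z i p) t - pd p (fun z => cfm v k z i j) t) / 2 =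
      inv k l p t * (pd i (fun z => k z j p) t + pd j (fun z => k z i p) t
        - pd p (fun z => k z i j) t) / 2 + pd i v t * (inv k l p t * k t j p)
        + pd j v t * (inv k l p t * k t i p) - k t i j * (inv k l p t * pd p v t) := by
    intro p
    rw [lcf_inv hk, lcf_pd hk hv, lcf_pd hk hv, lcf_pd hk hv]
    have hE : Real.exp (-(2 * v t)) * Real.exp (2 * v t) = 1 := by
      rw [← Real.exp_add]
      simp
    linear_combination (inv k l p t * ((2 * pd i v t * k t j p + pd i (fun z => k z j p) t)
      + (2 * pd j v t * k t i p + pd j (fun z => k z i p) t)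
      - (2 * pd p v t * k t i j + pd p (fun z => k z i j) t)) / 2) * hE
  rw [Finset.sum_congr rfl fun p _ => e p]
  simp only [Finset.sum_add_distrib, Finset.sum_sub_distrib, ← Finset.mul_sum]
  rw [lcf_inv_mul hk, lcf_inv_mul hk]
  congr 2
  · congr 1
    · split_ifs <;> simp
  · split_ifs <;> simp

theorem lcf : LcfStmt := by
  intro m k v w hk hv _hw t
  refine ⟨?_, ?_⟩
  · have h1 : lapM (cfm v k) w t = Real.exp (-(2 * v t)) * (lapM k w t
        - ∑ i, ∑ j, inv k i j t * (pd i v t * pd j w t) - ∑ i, ∑ j, inv k i j t * (pd j v t * pd i w t)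
        + ∑ i, ∑ j, (inv k i j t * k t i j) * ∑ l, ∑ p, inv k l p t * pd p v t * pd l w t) := by
      unfold lapM
      rw [← Finset.sum_sub_distrib, ← Finset.sum_sub_distrib, ← Finset.sum_add_distrib,
        Finset.mul_sum]
      refine Finset.sum_congr rfl fun i _ => ?_
      rw [← Finset.sum_sub_distrib, ← Finset.sum_sub_distrib, ← Finset.sum_add_distrib,
        Finset.mul_sum]
      refine Finset.sum_congr rfl fun j _ => ?_
      rw [lcf_inv hk]
      have e : ∑ l, christoffel (cfm v k) l i j t * pd l w t =
          ∑ l, christoffel k l i j t * pd l w t + pd i v t * pd j w t + pd j v t * pd i w t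
            - k t i j * ∑ l, ∑ p, inv k l p t * pd p v t * pd l w t := by
        have e1 : ∀ l, christoffel (cfm v k) l i j t * pd l w t =
            christoffel k l i j t * pd l w t + (if l = j then pd i v t * pd l w t else 0)
              + (if l = i then pd j v t * pd l w t else 0)
              - k t i j * ∑ p, inv k l p t * pd p v t * pd l w t := by
          intro l
          rw [lcf_chr hk hv, ← Finset.sum_mul]
          split_ifs <;> ring
        rw [Finset.sum_congr rfl fun l _ => e1 l]
        simp only [Finset.sum_add_distrib, Finset.sum_sub_distrib, ← Finset.mul_sum,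
          Finset.sum_ite_eq', Finset.mem_univ, if_true]
      rw [e]
      ring
    have hg : ∀ a b : (Fin m → ℝ) → ℝ, ∑ i, ∑ j, inv k i j t * (pd j a t * pd i b t) =
        gip k a b t := by
      intro a b
      unfold gip
      rw [Finset.sum_comm]
      refine Finset.sum_congr rfl fun j _ => Finset.sum_congr rfl fun i _ => ?_
      rw [lcf_inv_symm hk t i j]
      ring
    have hg1 : ∑ i, ∑ j, inv k i j t * (pd i v t * pd j w t) = gip k v w t := by
      unfold gip
      refine Finset.sum_congr rfl fun j _ => Finset.sum_congr rfl fun i _ => ?_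
      ring
    have hg2 : ∑ l, ∑ p, inv k l p t * pd p v t * pd l w t = gip k v w t := by
      rw [← hg v w]
      refine Finset.sum_congr rfl fun j _ => Finset.sum_congr rfl fun i _ => ?_
      ring
    have htr : ∑ i, ∑ j, (inv k i j t * k t i j) * gip k v w t = (m : ℝ) * gip k v w t := by
      simp only [← Finset.sum_mul]
      congr 1
      have : ∀ i, ∑ j, inv k i j t * k t i j = 1 := by
        intro i
        rw [lcf_inv_mul hk, if_pos rfl]
      rw [Finset.sum_congr rfl fun i _ => this i]
      simp
    rw [h1, hg1, hg v w, hg2, htr]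
    ring
  · unfold gip
    rw [Finset.mul_sum]
    refine Finset.sum_congr rfl fun i _ => ?_
    rw [Finset.mul_sum]
    refine Finset.sum_congr rfl fun j _ => ?_
    rw [lcf_inv hk]
    ring

end Pool.Agent.BCS.H62
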